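import Pool.Agent.helper46.T7.SpecC

/-!
# Row t7:CPF (MP_16912e_nt): one conductor coprime to `Z`, all discriminants (adapted from the row OSD of T6L, helper68)
-/

set_option autoImplicit false

namespace Pool.Agent.T7

open Finset NumberField Pool.Agent.helper3.FT Pool.Agent.helper47.RA Pool.Agent.T5 Pool.Agent.T6
open Pool.Agent.helper26.T5 (nn LEMB LP HCL HGA LYT LAW)
open Pool.Agent.helper28.LT (rad)

theorem CPF_rad (f : ℕ) (hf : 1 ≤ f) : rad f ∣ f ∧ 1 ≤ rad f := by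
  have h1 : rad f ∣ f := Nat.prod_primeFactors_dvd f
  exact ⟨h1, Nat.pos_of_dvd_of_pos h1 hf⟩

theorem CPF_rb (f : ℕ) : Pool.Agent.T6L.rb f 1 = rad f := by
  unfold Pool.Agent.T6L.rb rad
  congr 1
  refine filter_true_of_mem fun p hp => ?_
  intro h
  exact (Nat.prime_of_mem_primeFactors hp).one_lt.ne' (Nat.dvd_one.1 h)

theorem CPF_sl (f : ℕ) (hf : 1 ≤ f) : Pool.Agent.T6L.sl f 1 = f := by
  unfold Pool.Agent.T6L.sl
  rw [one_pow, Nat.gcd_one_right, Nat.div_one]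
  exact Nat.lcm_eq_right (CPF_rad f hf).1

theorem CPF_ff (f : ℕ) (z : ℤ) (hz : 0 < z) (hf : 1 ≤ f) (h : IsCoprime (f : ℤ) z) :
    Pool.Agent.T6L.ff f z.toNat = 1 := by
  have h1 : Nat.Coprime f z.toNat := by
    have h2 := Int.isCoprime_iff_gcd_eq_one.1 h
    have h3 : z = (z.toNat : ℤ) := (Int.toNat_of_nonneg hz.le).symm
    rw [h3] at h2
    exact h2
  have h4 : Nat.Coprime (rad f) z.toNat := Nat.Coprime.coprime_dvd_left (CPF_rad f hf).1 h1
  unfold Pool.Agent.T6L.ff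
  exact (Nat.Coprime.pow_left 2 (Nat.Coprime.mul_left h1 h4)).symm

theorem CPF : CPF_stmt := by
  intro hUB hOFD
  obtain ⟨C₀, hC₀, hub⟩ := hUB
  refine ⟨48 * (1 + 4 * Real.pi) ^ 2 * C₀ + 1, ?_, ?_⟩
  · have : 0 ≤ 48 * (1 + 4 * Real.pi) ^ 2 * C₀ := by positivity
    linarith
  intro h hh N R f hN hR hf h5 F hF
  have hpi0 : 0 < Real.pi := Real.pi_pos
  have hf0 : (0 : ℝ) < f := by exact_mod_cast hf
  have hf1 : (1 : ℝ) ≤ f := by exact_mod_cast hf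
  have hN0 : 0 < N := by linarith
  have hR0 : 0 < R := by linarith
  have hsN : 0 < √N := Real.sqrt_pos.2 hN0
  have hfZ : ((f : ℤ) ^ 2) ≠ 0 := by
    have : (f : ℤ) ≠ 0 := by exact_mod_cast (show f ≠ 0 by omega)
    exact pow_ne_zero _ this
  obtain ⟨hrd, hr1⟩ := CPF_rad f hf
  have hr0 : (0 : ℝ) < rad f := by exact_mod_cast hr1
  -- the discriminants
  set s : Finset ℤ := F.image (fun t => dis t / (f : ℤ) ^ 2) with hs
  have hsprop : ∀ D ∈ s, IsFund D ∧ N / 4 ≤ -(D : ℝ) * (f : ℝ) ^ 2 ∧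
      -(D : ℝ) * (f : ℝ) ^ 2 ≤ N := by
    intro D hD
    obtain ⟨t, ht, rfl⟩ := mem_image.1 hD
    obtain ⟨hT, -, D₀, hD₀, hdis⟩ := hF t ht
    have h1 := hT.d1
    have h2 := hT.d2
    have hq : dis t / (f : ℤ) ^ 2 = D₀ := by
      rw [hdis]
      exact Int.mul_ediv_cancel _ hfZ
    rw [hq]
    rw [hdis] at h1 h2
    push_cast at h1 h2
    refine ⟨hD₀, ?_, ?_⟩
    · linarith
    · linarith
  have hsneg : ∀ D ∈ s, (D : ℝ) < 0 := by
    intro D hD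
    obtain ⟨-, h1, -⟩ := hsprop D hD
    by_contra h0
    push Not at h0
    have : -(D : ℝ) * (f : ℝ) ^ 2 ≤ 0 := by
      have : 0 ≤ (D : ℝ) * (f : ℝ) ^ 2 := by positivity
      linarith
    linarith
  set K1 : ℝ := 24 * (1 + 4 * Real.pi) ^ 2 * 49 ^ f.primeFactors.card * ((f : ℝ) / rad f * R) with hK1
  have hK10 : 0 ≤ K1 := by rw [hK1]; positivity
  -- one field
  have hone : ∀ D ∈ s, ((F.filter (fun t => dis t / (f : ℤ) ^ 2 = D)).card : ℝ) ≤ K1 * h D := by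
    intro D hD
    obtain ⟨hD1, hD2, hD3⟩ := hsprop D hD
    have hDneg := hsneg D hD
    obtain ⟨Φ⟩ := Pool.Agent.helper68.T5.HSD_fld D hD1
    have hQD : Φ.Q.D = D := Φ.hD
    have hcl : (h D : ℝ) = (Nat.card {x : ClassGroup (𝓞 Φ.K) // x ^ 5 = 1} : ℝ) := by
      have e := hh Φ.K Φ.fin
      rw [Φ.dK] at e
      exact_mod_cast e
    have h1 := hOFD Φ.K Φ.Q f 1 √N (R * √N) Φ.fin (by rw [hQD]; exact_mod_cast hDneg) hf h5 hsN (by positivity)
      (F.filter (fun t => dis t / (f : ℤ) ^ 2 = D)) (by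
        intro t ht
        rw [mem_filter] at ht
        obtain ⟨ht1, ht2⟩ := ht
        obtain ⟨hT, hcop, D₀, -, hdis⟩ := hF t ht1
        refine ⟨hT.tt, hT.z1, hT.z2, hT.l1, hT.l2, ?_, CPF_ff f _ hT.z1 hf hcop⟩
        rw [hQD, ← ht2, hdis, Int.mul_ediv_cancel _ hfZ])
    rw [← hcl, hQD, CPF_rb, CPF_sl f hf] at h1
    have hA1 : 1 ≤ (f : ℝ) / rad f := by
      rw [one_le_div hr0]
      exact_mod_cast Nat.le_of_dvd (by omega) hrd
    have tY := Pool.Agent.T6L.OSD_term N (D : ℝ) (((1 : ℕ) : ℝ) * rad f) f hf (by positivity) hN hD2 hDneg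
    have tX := Pool.Agent.T6L.OSD_term N (D : ℝ) (f : ℝ) f hf hf0 hN hD2 hDneg
    rw [Nat.cast_one, one_mul] at tY
    rw [Nat.cast_one, one_mul] at h1
    rw [div_self hf0.ne'] at tX
    have tX' : 2 * Real.pi * (R * √N) / ((f : ℝ) * √|(D : ℝ)|) ≤ 4 * Real.pi * R := by
      have e : 2 * Real.pi * (R * √N) / ((f : ℝ) * √|(D : ℝ)|) =
          R * (2 * Real.pi * √N / ((f : ℝ) * √|(D : ℝ)|)) := by ring
      rw [e]
      calc R * (2 * Real.pi * √N / ((f : ℝ) * √|(D : ℝ)|)) ≤ R * (4 * Real.pi * 1) :=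
            mul_le_mul_of_nonneg_left tX hR0.le
        _ = 4 * Real.pi * R := by ring
    have h2 := Pool.Agent.T6L.OSD_prod f.primeFactors.card (h D : ℝ) ((f : ℝ) / rad f) R
      (2 * Real.pi * √N / ((rad f : ℝ) * √|(D : ℝ)|))
      (2 * Real.pi * (R * √N) / ((f : ℝ) * √|(D : ℝ)|)) (((1 : ℕ) ^ 5).divisors.card : ℝ)
      (Nat.cast_nonneg _) hA1 hR (Nat.cast_nonneg _) (by positivity) (by positivity) tY tX'
    refine h1.trans (h2.trans (le_of_eq ?_))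
    have e1 : (((1 : ℕ) ^ 5).divisors.card : ℝ) = 1 := by
      rw [one_pow, Nat.divisors_one]
      simp
    rw [e1, hK1]
    ring
  -- the sum
  have hcard : (F.card : ℝ) = ∑ D ∈ s, ((F.filter (fun t => dis t / (f : ℤ) ^ 2 = D)).card : ℝ) := by
    rw [card_eq_sum_card_image (fun t => dis t / (f : ℤ) ^ 2) F]
    push_cast
    rfl
  rcases s.eq_empty_or_nonempty with he | hne
  · rw [hcard, he, Finset.sum_empty]
    positivity
  have hNf : 1 ≤ N / (f : ℝ) ^ 2 := by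
    obtain ⟨D, hD⟩ := hne
    obtain ⟨-, -, h3⟩ := hsprop D hD
    have h4 := hsneg D hD
    have h5 : (D : ℝ) ≤ -1 := by
      have h6 : D < 0 := by exact_mod_cast h4
      have h7 : D ≤ -1 := by omega
      exact_mod_cast h7
    rw [one_le_div (by positivity)]
    nlinarith [sq_nonneg (f : ℝ)]
  have hsum := hub h hh (⌊N / (f : ℝ) ^ 2⌋₊ + 1) s (by
    intro D hD
    obtain ⟨h1, -, h3⟩ := hsprop D hD
    have h4 := hsneg D hD
    have h6 : D < 0 := by exact_mod_cast h4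
    refine ⟨h1, h6, ?_⟩
    have h7 : -(D : ℝ) ≤ N / (f : ℝ) ^ 2 := by
      rw [le_div_iff₀ (by positivity)]
      exact h3
    have h8 : D.natAbs ≤ ⌊N / (f : ℝ) ^ 2⌋₊ := by
      refine Nat.le_floor ?_
      have h9 : ((D.natAbs : ℕ) : ℝ) = -(D : ℝ) := by
        rw [Nat.cast_natAbs, abs_of_neg h6]
        push_cast
        ring
      rw [h9]
      exact h7
    rw [Int.abs_eq_natAbs]
    exact_mod_cast Nat.lt_succ_of_le h8)
  have hfl : ((⌊N / (f : ℝ) ^ 2⌋₊ + 1 : ℕ) : ℝ) ≤ 2 * (N / (f : ℝ) ^ 2) := by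
    have h1 : (⌊N / (f : ℝ) ^ 2⌋₊ : ℝ) ≤ N / (f : ℝ) ^ 2 := Nat.floor_le (by positivity)
    push_cast
    linarith
  have hfin : ∑ D ∈ s, (h D : ℝ) ≤ 2 * C₀ * N / (f : ℝ) ^ 2 := by
    refine hsum.trans ((mul_le_mul_of_nonneg_left hfl hC₀).trans (le_of_eq ?_))
    ring
  rw [hcard]
  calc ∑ D ∈ s, ((F.filter (fun t => dis t / (f : ℤ) ^ 2 = D)).card : ℝ)
      ≤ ∑ D ∈ s, K1 * (h D : ℝ) := Finset.sum_le_sum hone
    _ = K1 * ∑ D ∈ s, (h D : ℝ) := by rw [mul_sum]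
    _ ≤ K1 * (2 * C₀ * N / (f : ℝ) ^ 2) := mul_le_mul_of_nonneg_left hfin hK10
    _ = 48 * (1 + 4 * Real.pi) ^ 2 * C₀ * R * (49 ^ f.primeFactors.card / ((f : ℝ) * rad f)) * N := by
        rw [hK1]
        field_simp
        ring
    _ ≤ (48 * (1 + 4 * Real.pi) ^ 2 * C₀ + 1) * R * (49 ^ f.primeFactors.card / ((f : ℝ) * rad f)) * N := by
        have : 0 ≤ R * (49 ^ f.primeFactors.card / ((f : ℝ) * rad f)) * N := by positivity
        nlinarith

end Pool.Agent.T7
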